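import Pool.Agent.Helper68.Dom.Goals

/-!
# Packet DOM-CASEA: large minimum degree
-/

namespace NApexGraphs.Dom.Helper7

open SimpleGraph NApexGraphs NApexGraphs.Dom

theorem gCASEA : Goals.PSETS → Goals.TWO → Goals.LOWV → Goals.CASEA := by
  classical
  intro hPSETS hTWO hLOWV V _ G n u hS hdeg
  -- it suffices to treat `x ≠ u`
  suffices key : ∀ x y, x ≠ u → y ≠ u → x ≠ y → G.Adj x y by
    intro x y hxy
    by_cases hx : x = u
    · rw [hx]
      exact hS.dom y fun h => hxy (by rw [hx, h])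
    by_cases hy : y = u
    · rw [hy]
      exact (hS.dom x hx).symm
    exact key x y hx hy hxy
  intro x y hxu hyu hxy
  obtain ⟨X, hX⟩ := hPSETS V G n u x hS hxu
  by_contra hnadj
  set O : Set V := Rest u x X with hO
  set Z : Set V := (X : Set V)ᶜ with hZ
  set G' : SimpleGraph V := G.deleteEdges {s(u, x)} with hG'
  have hyX : y ∉ X := fun h => hnadj (hX.nbr y h)
  have hyO : y ∈ O := ⟨hyX, hyu, hxy.symm⟩
  have hOX : ∀ z ∈ O, z ∉ X := fun z hz => hz.1
  have hOu : ∀ z ∈ O, z ≠ u := fun z hz => hz.2.1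
  have hOx : ∀ z ∈ O, z ≠ x := fun z hz => hz.2.2
  -- adjacency in `G'`
  have hadj1 : ∀ v z, v ≠ u → v ≠ x → G.Adj v z → G'.Adj v z := by
    intro v z hvu hvx h
    rw [hG', SimpleGraph.deleteEdges_adj]
    refine ⟨h, fun h' => ?_⟩
    rw [Set.mem_singleton_iff, Sym2.eq_iff] at h'
    rcases h' with h' | h'
    · exact hvu h'.1
    · exact hvx h'.1
  have hadj0 : ∀ v z, G'.Adj v z → G.Adj v z := fun v z h =>
    (SimpleGraph.deleteEdges_adj.1 h).1
  have hle : ∀ v ∈ O, ¬ G.Adj x v → ¬ Low G O v := by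
    intro v hv hxv hlow
    have h1 := hdeg v (hOu v hv)
    have h2 : G.neighborSet v ⊆ ((X : Set V) ∪ {u}) ∪ (G.neighborSet v ∩ O) := by
      intro z hz
      by_cases hzX : z ∈ X
      · exact Or.inl (Or.inl hzX)
      by_cases hzu : z = u
      · exact Or.inl (Or.inr hzu)
      refine Or.inr ⟨hz, hzX, hzu, ?_⟩
      rintro rfl
      exact hxv (SimpleGraph.Adj.symm hz)
    have h3 : (G.neighborSet v ∩ O).ncard ≤ 2 := by
      by_contra hlt
      obtain ⟨a, b, c, ha, hb, hc, hab, hac, hbc⟩ := (Set.two_lt_ncard_iff).1 (not_le.1 hlt)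
      rcases hlow a ha.2 b hb.2 c hc.2 ha.1 hb.1 hc.1 with h | h | h
      · exact hab h
      · exact hac h
      · exact hbc h
    have h4 := Set.ncard_le_ncard h2 (Set.toFinite _)
    have h5 := Set.ncard_union_le ((X : Set V) ∪ {u}) (G.neighborSet v ∩ O)
    have h6 := Set.ncard_union_le (X : Set V) {u}
    rw [Set.ncard_coe_finset, hX.card, Set.ncard_singleton] at h6
    omega
  -- the component
  obtain ⟨C, hC, hyC⟩ := exists_comp (O := {v | v ∈ O ∧ ¬ G.Adj x v})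
    (Conn.singleton G y) (Set.singleton_subset_iff.2 ⟨hyO, hnadj⟩)
  have hCO : C ⊆ O := fun v hv => (hC.sub hv).1
  have hCx : ∀ v ∈ C, ¬ G.Adj x v := fun v hv => (hC.sub hv).2
  have hCconn : Conn G' C := hC.conn.mono fun a ha b _ hab =>
    hadj1 a b (hOu a (hCO ha)) (hOx a (hCO ha)) hab
  have hA : ∀ v ∈ C, ∀ z ∈ O, z ∉ C → G.Adj v z → G.Adj x z := by
    intro v hv z hz hzC hvz
    by_contra hxz
    exact hzC (hC.closed v hv z ⟨hz, hxz⟩ hvz)
  set A : Set V := {z | z ∈ O ∧ z ∉ C ∧ ∃ v ∈ C, G.Adj v z} with hAdef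
  have hAx : ∀ z ∈ A, G.Adj x z := by
    rintro z ⟨hz, hzC, v, hv, hvz⟩
    exact hA v hv z hz hzC hvz
  have hxadj : ∀ z, z ≠ u → G.Adj x z → G'.Adj x z := by
    intro z hzu h
    rw [hG', SimpleGraph.deleteEdges_adj]
    refine ⟨h, fun h' => ?_⟩
    rw [Set.mem_singleton_iff, Sym2.eq_iff] at h'
    rcases h' with h' | h'
    · exact hxu h'.1
    · exact hzu h'.2
  have huadj : ∀ z, z ≠ u → z ≠ x → G'.Adj u z := by
    intro z hzu hzx
    rw [hG', SimpleGraph.deleteEdges_adj]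
    refine ⟨hS.dom z hzu, fun h' => ?_⟩
    rw [Set.mem_singleton_iff, Sym2.eq_iff] at h'
    rcases h' with h' | h'
    · exact hzx h'.2
    · exact hxu h'.1.symm
  -- no three elements in `A`
  have hthree : ∀ a ∈ A, ∀ b ∈ A, ∀ c ∈ A, a = b ∨ a = c ∨ b = c := by
    intro a ha b hb c hc
    by_contra hne
    push Not at hne
    obtain ⟨hab, hac, hbc⟩ := hne
    apply hX.pl.2
    have hT : ∀ z ∈ A, Touch G' C {z} := by
      rintro z ⟨_, _, v, hv, hvz⟩
      exact ⟨v, hv, z, rfl, hadj1 v z (hOu v (hCO hv)) (hOx v (hCO hv)) hvz⟩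
    have hTx : ∀ z ∈ A, Touch G' {x} {z} := fun z hz =>
      touch_singleton.2 (hxadj z (hOu z hz.1) (hAx z hz))
    have hTu : ∀ z ∈ A, Touch G' {u} {z} := fun z hz =>
      touch_singleton.2 (huadj z (hOu z hz.1) (hOx z hz.1))
    have hxC : x ∉ C := fun h => hOx x (hCO h) rfl
    have huC : u ∉ C := fun h => hOu u (hCO h) rfl
    have dC : ∀ z, z ∉ C → Disjoint C {z} := fun z hz => Set.disjoint_singleton_right.2 hz
    have ds : ∀ z w : V, z ≠ w → Disjoint ({z} : Set V) {w} := fun z w h =>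
      Set.disjoint_singleton.2 h
    refine hasK33_sets C {x} {u} {a} {b} {c} ?_ ?_ ?_ ?_
    · simp only [List.mem_cons, List.not_mem_nil, or_false, forall_eq_or_imp, forall_eq]
      exact ⟨hCconn, Conn.singleton _ _, Conn.singleton _ _, Conn.singleton _ _,
        Conn.singleton _ _, Conn.singleton _ _⟩
    · simp only [List.pairwise_cons, List.mem_cons, List.not_mem_nil, or_false, forall_eq_or_imp,
        forall_eq, IsEmpty.forall_iff, implies_true, List.Pairwise.nil, and_true]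
      exact ⟨⟨dC x hxC, dC u huC, dC a ha.2.1, dC b hb.2.1, dC c hc.2.1⟩,
        ⟨ds _ _ hxu, ds _ _ (hOx a ha.1).symm, ds _ _ (hOx b hb.1).symm,
          ds _ _ (hOx c hc.1).symm⟩,
        ⟨ds _ _ (hOu a ha.1).symm, ds _ _ (hOu b hb.1).symm, ds _ _ (hOu c hc.1).symm⟩,
        ⟨ds _ _ hab, ds _ _ hac⟩, ds _ _ hbc⟩
    · simp only [List.mem_cons, List.not_mem_nil, or_false, forall_eq_or_imp, forall_eq]
      exact ⟨⟨hT a ha, hT b hb, hT c hc⟩, ⟨hTx a ha, hTx b hb, hTx c hc⟩,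
        hTu a ha, hTu b hb, hTu c hc⟩
    · simp only [List.mem_cons, List.not_mem_nil, or_false, forall_eq_or_imp, forall_eq,
        Set.singleton_subset_iff]
      exact ⟨fun z hz => hOX z (hCO hz), hX.hx, hX.hu, hOX a ha.1, hOX b hb.1, hOX c hc.1⟩
  -- the two attachments
  obtain ⟨a, b, haO, hbO, haC, hbC, hxa, hxb, hAab⟩ : ∃ a b, a ∈ O ∧ b ∈ O ∧ a ∉ C ∧ b ∉ C ∧
      G.Adj x a ∧ G.Adj x b ∧ ∀ z ∈ A, z = a ∨ z = b := by
    by_cases hne : A.Nonempty
    · obtain ⟨a, ha⟩ := hne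
      by_cases hb : ∃ b ∈ A, b ≠ a
      · obtain ⟨b, hb, hba⟩ := hb
        refine ⟨a, b, ha.1, hb.1, ha.2.1, hb.2.1, hAx a ha, hAx b hb, fun z hz => ?_⟩
        rcases hthree a ha b hb z hz with h | h | h
        · exact absurd h.symm hba
        · exact Or.inl h.symm
        · exact Or.inr h.symm
      · push Not at hb
        exact ⟨a, a, ha.1, ha.1, ha.2.1, ha.2.1, hAx a ha, hAx a ha, fun z hz =>
          Or.inl (hb z hz)⟩
    · obtain ⟨p, q, hpq, hp, hq, hxp, hxq⟩ := hTWO V G n u x X hS hxu hX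
      have hpC : p ∉ C := fun h => hCx p h hxp
      exact ⟨p, p, hp, hp, hpC, hpC, hxp, hxp, fun z hz => absurd ⟨z, hz⟩ hne⟩
  obtain ⟨r, hrC, hr⟩ := hLOWV V G' Z O C u x a b hX.pl.1 hX.hu hX.hx (fun z hz => hOX z hz)
    (fun h => hOu u h rfl) (fun h => hOx x h rfl) hxu.symm
    (fun v hv => huadj v (hOu v hv) (hOx v hv)) haO hbO haC hbC
    (hxadj a (hOu a haO) hxa) (hxadj b (hOu b hbO) hxb) hCO ⟨y, hyC rfl⟩
    (fun v hv z hz hvz => by
      by_cases hzC : z ∈ C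
      · exact Or.inl hzC
      · exact Or.inr (hAab z ⟨hz, hzC, v, hv, hadj0 v z hvz⟩))
  refine hle r (hCO hrC) (hCx r hrC) ?_
  intro a1 h1 a2 h2 a3 h3 e1 e2 e3
  have hru := hOu r (hCO hrC)
  have hrx := hOx r (hCO hrC)
  exact hr a1 h1 a2 h2 a3 h3 (hadj1 r a1 hru hrx e1) (hadj1 r a2 hru hrx e2)
    (hadj1 r a3 hru hrx e3)

end NApexGraphs.Dom.Helper7
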